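import Pool.Agent.H194Z.PiMain

set_option autoImplicit false

namespace Pool.Agent.Results.MP_cc6759_lc.AHalfN

open Pool.Agent.H194Z.PiAdic

/-- In case (i) (`π ^ 2 = -N`) and in case (ii) (`π ^ d = N`), for a domain `R` with `ℤ`-basis
`1, π, …`, the average `π`-adic complexity of the finite sequences of length `n` is
`n / 2 + O(1)`. -/
theorem result (R : Type) [CommRing R] [IsDomain R] (N : ℕ) (hN : 2 ≤ N) (π : R) :
    (∀ b : Module.Basis (Fin 2) ℤ R, (∀ i, b i = π ^ (i : ℕ)) → π ^ 2 = -N →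
      ∃ C : ℝ, ∀ n : ℕ, avg (sizeI N b) π N n ≠ ⊤ ∧
        |(avg (sizeI N b) π N n).toReal - n / 2| ≤ C) ∧
    (∀ (d : ℕ) (b : Module.Basis (Fin d) ℤ R), 1 ≤ d → (∀ i, b i = π ^ (i : ℕ)) → π ^ d = N →
      ∃ C : ℝ, ∀ n : ℕ, avg (sizeII N b) π N n ≠ ⊤ ∧
        |(avg (sizeII N b) π N n).toReal - n / 2| ≤ C) :=
  ⟨fun _ hb hπ => caseI hN hb hπ, fun _ _ hd hb hπ => caseII hN hd hb hπ⟩

end Pool.Agent.Results.MP_cc6759_lc.AHalfN
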